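import Pool.Agent.Run7.h519.FL.Stm

/-!
# Piece P1 of the project FL (helper519): boundary values
-/

set_option autoImplicit false

noncomputable section

namespace Run7.h382.FL

open Run7.h519.FL
open Polynomial MeasureTheory
open scoped Topology

lemma U_rec (N : ℕ) : (4 * X * U (N + 1) : ℝ[X]) =
    -(1 - X) ^ 2 * U N + C ((U N).coeff 0) * (1 + X) := by
  set Q : ℝ[X] := -(1 - X) ^ 2 * U N + C ((U N).coeff 0) * (1 + X) with hQ
  have h1 : U (N + 1) = C (1 / 4) * Q.divX := by rw [U]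
  have h2 : Q.coeff 0 = 0 := by
    rw [hQ, coeff_zero_eq_eval_zero, coeff_zero_eq_eval_zero]
    simp
  have h3 := divX_mul_X_add Q
  rw [h2, C_0, add_zero] at h3
  have h4 : (4 : ℝ[X]) * C (1 / 4) = 1 := by
    rw [show (4 : ℝ[X]) = C 4 by rfl, ← C_mul]
    norm_num
  calc (4 * X * U (N + 1) : ℝ[X]) = (4 * C (1 / 4)) * (Q.divX * X) := by rw [h1]; ring
    _ = Q := by rw [h4, h3, one_mul]

lemma FN'_rec (N : ℕ) (z : ℂ) : 4 * z ^ 2 * FN' (N + 1) z = -(1 - z ^ 2) ^ 2 * FN' N z + (uu N : ℂ) * (1 + z ^ 2) := by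
  have h := congrArg (aeval (z ^ 2)) (U_rec N)
  simp only [map_mul, map_add, map_sub, map_neg, map_pow, map_one, aeval_X, aeval_C, map_ofNat] at h
  unfold FN' uu
  exact h

/-- the point of the circle -/
def ez (θ : ℝ) : ℂ := Complex.exp ((θ : ℂ) * Complex.I)

lemma ez_eq (θ : ℝ) : ez θ = (Real.cos θ : ℂ) + (Real.sin θ : ℂ) * Complex.I := by
  unfold ez
  rw [Complex.exp_mul_I, Complex.ofReal_cos, Complex.ofReal_sin]

lemma ez_ne (θ : ℝ) : ez θ ≠ 0 := Complex.exp_ne_zero _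

lemma cs_one (θ : ℝ) : (Real.cos θ : ℂ) ^ 2 + (Real.sin θ : ℂ) ^ 2 = 1 := by
  have h := Real.cos_sq_add_sin_sq θ
  exact_mod_cast h

lemma one_sub_ez (θ : ℝ) : 1 - ez θ ^ 2 = -2 * (Real.sin θ : ℂ) * Complex.I * ez θ := by
  have h := cs_one θ
  rw [ez_eq]
  have hI : Complex.I ^ 2 = -1 := Complex.I_sq
  linear_combination (-1 : ℂ) * h + (-(Real.sin θ : ℂ) ^ 2 + 2 * (Real.sin θ : ℂ) ^ 2) * hI

lemma one_add_ez (θ : ℝ) : 1 + ez θ ^ 2 = 2 * (Real.cos θ : ℂ) * ez θ := by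
  have h := cs_one θ
  rw [ez_eq]
  have hI : Complex.I ^ 2 = -1 := Complex.I_sq
  linear_combination (-1 : ℂ) * h + ((Real.sin θ : ℂ) ^ 2) * hI

lemma step (N : ℕ) (θ : ℝ) : ez θ * FN' (N + 1) (ez θ) =
    (Real.sin θ : ℂ) ^ 2 * (ez θ * FN' N (ez θ)) + (uu N : ℂ) / 2 * (Real.cos θ : ℂ) := by
  have h := FN'_rec N (ez θ)
  rw [one_sub_ez, one_add_ez] at h
  have hz := ez_ne θ
  have hI : Complex.I ^ 2 = -1 := Complex.I_sq
  have h2 : 4 * ez θ * (ez θ * FN' (N + 1) (ez θ)) = 4 * ez θ * ((Real.sin θ : ℂ) ^ 2 * (ez θ * FN' N (ez θ)) +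
      (uu N : ℂ) / 2 * (Real.cos θ : ℂ)) := by
    linear_combination h - 4 * (Real.sin θ : ℂ) ^ 2 * ez θ ^ 2 * FN' N (ez θ) * hI
  exact mul_left_cancel₀ (mul_ne_zero (by norm_num) hz) h2

theorem P1a (N : ℕ) (θ : ℝ) : ez θ * FN' N (ez θ) =
    ((Real.cos θ * BB N (Real.sin θ ^ 2) : ℝ) : ℂ) + ((Real.sin θ ^ (2 * N + 1) : ℝ) : ℂ) * Complex.I := by
  induction N with
  | zero =>
    have h : FN' 0 (ez θ) = 1 := by unfold FN'; simp [U]
    rw [h, mul_one, ez_eq]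
    simp [BB]
  | succ N ih =>
    rw [step, ih]
    simp only [BB]
    push_cast
    ring

lemma FN_der (N : ℕ) (z : ℂ) : HasDerivAt (FN N) (FN' N z) z := by
  have h1 : FN' N z = ∑ j ∈ Finset.range ((U N).natDegree + 1), ((U N).coeff j : ℂ) *
      ((((2 * j + 1 : ℕ) : ℂ) * z ^ (2 * j + 1 - 1)) / ((2 * j + 1 : ℕ) : ℂ)) := by
    unfold FN'
    rw [aeval_eq_sum_range]
    refine Finset.sum_congr rfl fun j _ => ?_
    have hj : ((2 * j + 1 : ℕ) : ℂ) ≠ 0 := Nat.cast_ne_zero.2 (by omega)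
    rw [mul_div_cancel_left₀ _ hj, Complex.real_smul, show 2 * j + 1 - 1 = 2 * j by omega, pow_mul]
  rw [h1]
  unfold FN
  exact HasDerivAt.fun_sum fun j _ => ((hasDerivAt_pow (2 * j + 1) z).div_const _).const_mul _

lemma BB_cont (N : ℕ) : Continuous (BB N) := by
  induction N with
  | zero =>
    have : BB 0 = fun _ => 1 := by ext t; simp [BB]
    rw [this]; exact continuous_const
  | succ N ih =>
    have : BB (N + 1) = fun t => t * BB N t + uu N / 2 := by ext t; simp [BB]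
    rw [this]; fun_prop

lemma xN_der (N : ℕ) (θ : ℝ) : HasDerivAt (xN N) (-Real.sin θ ^ (2 * N + 1)) θ := by
  have hc : Continuous fun t => Real.sin t ^ (2 * N + 1) := by fun_prop
  exact intervalIntegral.integral_hasDerivAt_left (hc.intervalIntegrable _ _)
    (hc.stronglyMeasurableAtFilter _ _) hc.continuousAt

lemma yN_der (N : ℕ) (θ : ℝ) : HasDerivAt (yN N) (Real.cos θ * BB N (Real.sin θ ^ 2)) θ := by
  have hB := BB_cont N
  have hc : Continuous fun t => Real.cos t * BB N (Real.sin t ^ 2) := by fun_prop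
  exact intervalIntegral.integral_hasDerivAt_right (hc.intervalIntegrable _ _)
    (hc.stronglyMeasurableAtFilter _ _) hc.continuousAt

lemma ez_der (θ : ℝ) : HasDerivAt ez (ez θ * Complex.I) θ := by
  have h1 : HasDerivAt (fun t : ℝ => (t : ℂ) * Complex.I) (1 * Complex.I) θ :=
    (hasDerivAt_id θ).ofReal_comp.mul_const _
  have h2 := h1.cexp
  rw [one_mul] at h2
  exact h2

lemma FN_I_re (N : ℕ) : (FN N Complex.I).re = 0 := by
  unfold FN
  rw [Complex.re_sum]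
  refine Finset.sum_eq_zero fun j _ => ?_
  have h : Complex.I ^ (2 * j + 1) = (((-1 : ℝ) ^ j : ℝ) : ℂ) * Complex.I := by
    rw [pow_succ, pow_mul, Complex.I_sq]; push_cast; rfl
  rw [h]
  have h2 : (((U N).coeff j : ℝ) : ℂ) * ((((-1 : ℝ) ^ j : ℝ) : ℂ) * Complex.I / ((2 * j + 1 : ℕ) : ℂ)) =
      (((U N).coeff j * (-1) ^ j / ((2 * j + 1 : ℕ) : ℝ) : ℝ) : ℂ) * Complex.I := by
    push_cast; ring
  rw [h2, Complex.re_ofReal_mul, Complex.I_re, mul_zero]

lemma FN_one_im (N : ℕ) : (FN N 1).im = 0 := by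
  unfold FN
  rw [Complex.im_sum]
  refine Finset.sum_eq_zero fun j _ => ?_
  have h2 : (((U N).coeff j : ℝ) : ℂ) * ((1 : ℂ) ^ (2 * j + 1) / ((2 * j + 1 : ℕ) : ℂ)) =
      (((U N).coeff j * (1 / ((2 * j + 1 : ℕ) : ℝ)) : ℝ) : ℂ) := by
    push_cast; rw [one_pow]
  rw [h2, Complex.ofReal_im]

theorem P1b (N : ℕ) (θ : ℝ) : FN N (ez θ) = (xN N θ : ℂ) + (yN N θ : ℂ) * Complex.I := by
  set H : ℝ → ℂ := fun t => FN N (ez t) - ((xN N t : ℂ) + (yN N t : ℂ) * Complex.I) with hH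
  have hd : ∀ t, HasDerivAt H 0 t := by
    intro t
    have h1 : HasDerivAt (fun t => FN N (ez t)) (FN' N (ez t) * (ez t * Complex.I)) t :=
      (FN_der N (ez t)).comp t (ez_der t)
    have h2 : HasDerivAt (fun t => ((xN N t : ℂ) + (yN N t : ℂ) * Complex.I))
        (((-Real.sin t ^ (2 * N + 1) : ℝ) : ℂ) + ((Real.cos t * BB N (Real.sin t ^ 2) : ℝ) : ℂ) * Complex.I) t :=
      (xN_der N t).ofReal_comp.add ((yN_der N t).ofReal_comp.mul_const _)
    have h3 := h1.sub h2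
    have e : FN' N (ez t) * (ez t * Complex.I) - (((-Real.sin t ^ (2 * N + 1) : ℝ) : ℂ) +
        ((Real.cos t * BB N (Real.sin t ^ 2) : ℝ) : ℂ) * Complex.I) = 0 := by
      have h4 := P1a N t
      have hI : Complex.I ^ 2 = -1 := Complex.I_sq
      have h5 : ((-Real.sin t ^ (2 * N + 1) : ℝ) : ℂ) = -((Real.sin t ^ (2 * N + 1) : ℝ) : ℂ) := by push_cast; rfl
      rw [h5]
      linear_combination Complex.I * h4 + ((Real.sin t ^ (2 * N + 1) : ℝ) : ℂ) * hI
    rw [e] at h3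
    exact h3
  have hconst : ∀ s t, H s = H t := is_const_of_deriv_eq_zero (fun t => (hd t).differentiableAt) (fun t => (hd t).deriv)
  have h0 : (H θ).re = 0 := by
    rw [hconst θ (Real.pi / 2)]
    have e1 : ez (Real.pi / 2) = Complex.I := by rw [ez_eq]; simp
    have e2 : xN N (Real.pi / 2) = 0 := by unfold xN; simp
    simp only [hH]
    rw [e1, Complex.sub_re, FN_I_re, e2]
    simp
  have h1 : (H θ).im = 0 := by
    rw [hconst θ 0]
    have e1 : ez 0 = 1 := by rw [ez_eq]; simp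
    have e2 : yN N 0 = 0 := by unfold yN; simp
    simp only [hH]
    rw [e1, Complex.sub_im, FN_one_im, e2]
    simp
  have h2 : H θ = 0 := Complex.ext h0 h1
  exact sub_eq_zero.1 h2

theorem P1 : S_P1 := fun N θ => ⟨P1a N θ, P1b N θ⟩

end Run7.h382.FL
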