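import Pool.Agent.Run7.h519.FL.Stm

/-!
# Piece P2 of the project FL (helper519): the constants
-/

set_option autoImplicit false

noncomputable section

namespace Run7.h382.FL

open Run7.h519.FL
open Polynomial

/-- the coefficients of the recursion -/
lemma coeff_rec (N j : ℕ) : (U (N + 1)).coeff j =
    1 / 4 * (-((U N).coeff (j + 1) - 2 * (U N).coeff j + (if j = 0 then 0 else (U N).coeff (j - 1))) +
      (if j = 0 then (U N).coeff 0 else 0)) := by
  rw [U]
  rw [coeff_C_mul, coeff_divX]
  congr 1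
  have e1 : (-(1 - X) ^ 2 * U N : ℝ[X]) = -(U N) + C 2 * (U N * X) - U N * X * X := by
    have : (C 2 : ℝ[X]) = 2 := rfl
    rw [this]; ring
  have e2 : (C ((U N).coeff 0) * (1 + X) : ℝ[X]) = C ((U N).coeff 0) + C ((U N).coeff 0) * X := by ring
  rw [e1, e2, coeff_add, coeff_add, coeff_sub, coeff_add, coeff_neg, coeff_C_mul, coeff_mul_X, coeff_mul_X]
  rcases j with _ | j
  · simp [coeff_X]
    ring
  · rw [coeff_mul_X, coeff_C_mul, coeff_X]
    simp
    ring

theorem coeff_U (N : ℕ) : ∀ j : ℕ, (U N).coeff j = (-1) ^ j * ((2 * N + 1).choose (N + 1 + j) : ℝ) / 4 ^ N := by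
  induction N with
  | zero =>
    intro j
    rcases j with _ | j
    · simp [U]
    · have : (2 * 0 + 1).choose (0 + 1 + (j + 1)) = 0 := Nat.choose_eq_zero_of_lt (by omega)
      rw [this]
      simp [U, coeff_one]
  | succ N ih =>
    intro j
    rw [coeff_rec]
    simp only [ih]
    have h1 : (2 * (N + 1) + 1).choose (N + 1 + 1 + j) = (2 * N + 1).choose (N + 1 + 1 + j) +
        2 * (2 * N + 1).choose (N + 1 + j) + (2 * N + 1).choose (N + j) := by
      rw [show 2 * (N + 1) + 1 = 2 * N + 1 + 1 + 1 by ring, show N + 1 + 1 + j = N + j + 1 + 1 by ring,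
        Nat.choose_succ_succ, Nat.choose_succ_succ, Nat.choose_succ_succ (2 * N + 1) (N + j + 1),
        show N + 1 + j = N + j + 1 by ring]
      ring
    rcases j with _ | j
    · rw [if_pos rfl, if_pos rfl]
      have h2 : (2 * N + 1).choose (N + 0) = (2 * N + 1).choose (N + 1 + 0) := by
        rw [add_zero, add_zero, ← Nat.choose_symm_half]
      rw [h2] at h1
      rw [h1, pow_succ]
      push_cast
      rw [show N + 1 + (0 + 1) = N + 1 + 1 + 0 by ring]
      field_simp
      ring
    · rw [if_neg (by omega), if_neg (by omega), show j + 1 - 1 = j by omega, h1]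
      rw [show N + 1 + (j + 1 + 1) = N + 1 + 1 + (j + 1) by ring, show N + 1 + j = N + (j + 1) by ring]
      push_cast
      rw [pow_succ (4 : ℝ) N, pow_succ, pow_succ]
      field_simp
      ring

theorem uu_eq (N : ℕ) : uu N = ((2 * N + 1).choose (N + 1) : ℝ) / 4 ^ N := by
  unfold uu
  rw [coeff_U]
  simp

theorem P2 : S_P2 := by
  intro N
  constructor
  · rw [uu_eq]
    have : 0 < (2 * N + 1).choose (N + 1) := Nat.choose_pos (by omega)
    positivity
  · rw [uu_eq, uu_eq]
    have h1 : (2 * (N + 1) + 1).choose (N + 1 + 1) * (N + 2) = (2 * N + 3) * (2 * (2 * N + 1).choose (N + 1)) := by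
      have h2 := Nat.add_one_mul_choose_eq (2 * N + 2) (N + 1)
      have h3 : (2 * N + 2).choose (N + 1) = 2 * (2 * N + 1).choose (N + 1) := by
        rw [show 2 * N + 2 = 2 * N + 1 + 1 by ring, Nat.choose_succ_succ, ← Nat.choose_symm_half]
        ring
      rw [h3] at h2
      rw [show 2 * (N + 1) + 1 = 2 * N + 2 + 1 by ring, show N + 2 = N + 1 + 1 by ring, ← h2]
    have h2 : ((2 * (N + 1) + 1).choose (N + 1 + 1) : ℝ) * (N + 2) = (2 * N + 3) * (2 * ((2 * N + 1).choose (N + 1) : ℝ)) := by
      exact_mod_cast h1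
    rw [pow_succ]
    field_simp
    linarith

end Run7.h382.FL
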