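import Pool.Agent.Run7.h382.FL.P1

/-!
# Piece P3 of the project FL (helper519): univalence
-/

set_option autoImplicit false

noncomputable section

namespace Run7.h382.FL

open Run7.h519.FL
open Polynomial MeasureTheory Metric Set
open scoped Topology ComplexConjugate

/-- the function with nonnegative real part -/
def pp (N : ℕ) (z : ℂ) : ℂ := (1 - z ^ 2) * FN' N z

lemma FN'_diff (N : ℕ) : Differentiable ℂ (FN' N) := by
  have h : Differentiable ℂ fun x : ℂ => aeval x (U N) := (U N).differentiable_aeval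
  have h2 : Differentiable ℂ fun z : ℂ => z ^ 2 := by fun_prop
  exact h.comp h2

lemma pp_diff (N : ℕ) : Differentiable ℂ (pp N) := by
  have h1 : Differentiable ℂ fun z : ℂ => 1 - z ^ 2 := by fun_prop
  exact h1.mul (FN'_diff N)

lemma pp_ez (N : ℕ) (θ : ℝ) : pp N (ez θ) = ((2 * Real.sin θ ^ (2 * N + 2) : ℝ) : ℂ) -
    ((2 * Real.sin θ * Real.cos θ * BB N (Real.sin θ ^ 2) : ℝ) : ℂ) * Complex.I := by
  have h := P1a N θ
  have hI : Complex.I ^ 2 = -1 := Complex.I_sq
  unfold pp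
  rw [one_sub_ez]
  push_cast at h ⊢
  linear_combination (-2 * Complex.sin θ * Complex.I) * h - 2 * Complex.sin θ ^ (2 * N + 2) * hI

lemma re_pp_ez (N : ℕ) (θ : ℝ) : (pp N (ez θ)).re = 2 * Real.sin θ ^ (2 * N + 2) := by
  rw [pp_ez, Complex.sub_re, Complex.ofReal_re, Complex.re_ofReal_mul, Complex.I_re, mul_zero, sub_zero]

lemma eq_ez {z : ℂ} (hz : ‖z‖ = 1) : ∃ θ : ℝ, θ ∈ Ioc (-Real.pi) Real.pi ∧ z = ez θ := by
  refine ⟨z.arg, Complex.arg_mem_Ioc z, ?_⟩
  have h := Complex.norm_mul_exp_arg_mul_I z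
  rw [hz, Complex.ofReal_one, one_mul] at h
  exact h.symm

lemma ez_norm (θ : ℝ) : ‖ez θ‖ = 1 := by
  unfold ez
  exact Complex.norm_exp_ofReal_mul_I θ

lemma re_pp_circle (N : ℕ) {z : ℂ} (hz : ‖z‖ = 1) : 0 ≤ (pp N z).re := by
  obtain ⟨θ, -, rfl⟩ := eq_ez hz
  rw [re_pp_ez, show 2 * N + 2 = (N + 1) * 2 by ring, pow_mul]
  positivity

/-- maximum principle for real parts -/
lemma re_max {g : ℂ → ℂ} (hg : Differentiable ℂ g) (C : ℝ) (hC : ∀ z : ℂ, ‖z‖ = 1 → (g z).re ≤ C) {z : ℂ} (hz : ‖z‖ ≤ 1) :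
    (g z).re ≤ C := by
  have hd : DiffContOnCl ℂ (fun z => Complex.exp (g z)) (ball (0 : ℂ) 1) := (hg.cexp).diffContOnCl
  have h := Complex.norm_le_of_forall_mem_frontier_norm_le (isBounded_ball) hd (C := Real.exp C) (by
    intro w hw
    rw [frontier_ball (0 : ℂ) one_ne_zero, mem_sphere_zero_iff_norm] at hw
    rw [Complex.norm_exp]
    exact Real.exp_le_exp.2 (hC w hw)) (z := z) (by
    rw [closure_ball (0 : ℂ) one_ne_zero, mem_closedBall_zero_iff]
    exact hz)
  rw [Complex.norm_exp, Real.exp_le_exp] at h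
  exact h

lemma re_max_lt {g : ℂ → ℂ} (hg : Differentiable ℂ g) (C : ℝ) (hC : ∀ z : ℂ, ‖z‖ = 1 → (g z).re ≤ C) {w : ℂ} (hw : ‖w‖ ≤ 1)
    (hwC : (g w).re < C) {z : ℂ} (hz : ‖z‖ < 1) : (g z).re < C := by
  by_contra hcon
  have hle : ∀ u : ℂ, ‖u‖ ≤ 1 → (g u).re ≤ C := fun u hu => re_max hg C hC hu
  have heq : (g z).re = C := le_antisymm (hle z hz.le) (not_lt.1 hcon)
  have hd : DiffContOnCl ℂ (fun z => Complex.exp (g z)) (ball (0 : ℂ) 1) := (hg.cexp).diffContOnCl
  have hm : IsMaxOn (norm ∘ fun z => Complex.exp (g z)) (ball (0 : ℂ) 1) z := by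
    intro u hu
    rw [mem_ball_zero_iff] at hu
    show ‖Complex.exp (g u)‖ ≤ ‖Complex.exp (g z)‖
    rw [Complex.norm_exp, Complex.norm_exp, heq]
    exact Real.exp_le_exp.2 (hle u hu.le)
  have h := Complex.norm_eqOn_closure_of_isPreconnected_of_isMaxOn (convex_ball (0 : ℂ) 1).isPreconnected isOpen_ball
    hd (mem_ball_zero_iff.2 hz) hm
  have h2 := h (show w ∈ closure (ball (0 : ℂ) 1) by
    rw [closure_ball (0 : ℂ) one_ne_zero, mem_closedBall_zero_iff]
    exact hw)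
  simp only [Function.comp, Function.const] at h2
  rw [Complex.norm_exp, Complex.norm_exp, Real.exp_eq_exp, heq] at h2
  linarith

lemma re_pp_nonneg (N : ℕ) {z : ℂ} (hz : ‖z‖ ≤ 1) : 0 ≤ (pp N z).re := by
  have h := re_max (g := fun z => -pp N z) (pp_diff N).neg 0 (by
    intro w hw
    have := re_pp_circle N hw
    rw [Complex.neg_re]; linarith) hz
  rw [Complex.neg_re] at h
  linarith

lemma re_pp_pos (N : ℕ) {z : ℂ} (hz : ‖z‖ < 1) : 0 < (pp N z).re := by
  have h := re_max_lt (g := fun z => -pp N z) (pp_diff N).neg 0 (by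
    intro w hw
    have := re_pp_circle N hw
    rw [Complex.neg_re]; linarith) (w := ez (Real.pi / 2)) (ez_norm _).le (by
      show (-pp N (ez (Real.pi / 2))).re < 0
      rw [Complex.neg_re, re_pp_ez, Real.sin_pi_div_two]; norm_num) hz
  rw [Complex.neg_re] at h
  linarith

/-! ### the strip -/

/-- the map of the strip onto the disc -/
def tau (φ : ℂ) : ℂ := (Complex.exp φ - 1) / (Complex.exp φ + 1)

lemma re_exp_pos {φ : ℂ} (h : |φ.im| < Real.pi / 2) : 0 < (Complex.exp φ).re := by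
  rw [Complex.exp_re]
  exact mul_pos (Real.exp_pos _) (Real.cos_pos_of_mem_Ioo (abs_lt.1 h))

lemma re_exp_nonneg {φ : ℂ} (h : |φ.im| ≤ Real.pi / 2) : 0 ≤ (Complex.exp φ).re := by
  rw [Complex.exp_re]
  exact mul_nonneg (Real.exp_pos _).le (Real.cos_nonneg_of_mem_Icc (abs_le.1 h))

lemma den_ne {w : ℂ} (h : 0 ≤ w.re) : w + 1 ≠ 0 := by
  intro h2
  have := congrArg Complex.re h2
  simp at this
  linarith

lemma tau_der {φ : ℂ} (h : |φ.im| ≤ Real.pi / 2) : HasDerivAt tau ((1 - tau φ ^ 2) / 2) φ := by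
  have hne := den_ne (re_exp_nonneg h)
  have h1 : HasDerivAt (fun z => Complex.exp z - 1) (Complex.exp φ) φ := (Complex.hasDerivAt_exp φ).sub_const 1
  have h2 : HasDerivAt (fun z => Complex.exp z + 1) (Complex.exp φ) φ := (Complex.hasDerivAt_exp φ).add_const 1
  have h3 := h1.div h2 hne
  have e : (1 - tau φ ^ 2) / 2 = (Complex.exp φ * (Complex.exp φ + 1) - (Complex.exp φ - 1) * Complex.exp φ) /
      (Complex.exp φ + 1) ^ 2 := by
    unfold tau
    field_simp
    ring
  rw [e]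
  exact h3

lemma norm_quot_le {w : ℂ} (h : 0 ≤ w.re) : ‖(w - 1) / (w + 1)‖ ≤ 1 := by
  have hne := den_ne h
  rw [norm_div, div_le_one (norm_pos_iff.2 hne)]
  apply le_of_sq_le_sq _ (norm_nonneg _)
  rw [Complex.sq_norm, Complex.sq_norm, Complex.normSq_apply, Complex.normSq_apply]
  simp
  nlinarith

lemma norm_quot_lt {w : ℂ} (h : 0 < w.re) : ‖(w - 1) / (w + 1)‖ < 1 := by
  have hne := den_ne h.le
  rw [norm_div, div_lt_one (norm_pos_iff.2 hne)]
  apply lt_of_pow_lt_pow_left₀ 2 (norm_nonneg _)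
  rw [Complex.sq_norm, Complex.sq_norm, Complex.normSq_apply, Complex.normSq_apply]
  simp
  nlinarith

lemma tau_le {φ : ℂ} (h : |φ.im| ≤ Real.pi / 2) : ‖tau φ‖ ≤ 1 := norm_quot_le (re_exp_nonneg h)

lemma tau_lt {φ : ℂ} (h : |φ.im| < Real.pi / 2) : ‖tau φ‖ < 1 := norm_quot_lt (re_exp_pos h)

/-- the function on the strip -/
def fs (N : ℕ) (φ : ℂ) : ℂ := FN N (tau φ)

lemma fs_der (N : ℕ) {φ : ℂ} (h : |φ.im| ≤ Real.pi / 2) : HasDerivAt (fs N) (pp N (tau φ) / 2) φ := by
  have h1 := (FN_der N (tau φ)).comp φ (tau_der h)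
  have e : pp N (tau φ) / 2 = FN' N (tau φ) * ((1 - tau φ ^ 2) / 2) := by
    unfold pp
    ring
  rw [e]
  exact h1

lemma seg_im (a b : ℂ) (t : ℝ) : (a + (t : ℂ) * (b - a)).im = (1 - t) * a.im + t * b.im := by
  rw [Complex.add_im, Complex.im_ofReal_mul, Complex.sub_im]; ring

lemma seg_le {a b : ℂ} {t r : ℝ} (ha : |a.im| ≤ r) (hb : |b.im| ≤ r) (h0 : 0 ≤ t) (h1 : t ≤ 1) :
    |(a + (t : ℂ) * (b - a)).im| ≤ r := by
  rw [seg_im]
  rw [abs_le] at ha hb ⊢
  constructor <;> nlinarith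

lemma seg_lt {a b : ℂ} {t r : ℝ} (ha : |a.im| < r) (hb : |b.im| < r) (h0 : 0 ≤ t) (h1 : t ≤ 1) :
    |(a + (t : ℂ) * (b - a)).im| < r :=
  (seg_le (le_max_left _ _) (le_max_right _ _) h0 h1).trans_lt (max_lt ha hb)

/-- the real function along a segment -/
lemma seg_der (N : ℕ) {a b : ℂ} (ha : |a.im| ≤ Real.pi / 2) (hb : |b.im| ≤ Real.pi / 2) {t : ℝ} (h0 : 0 ≤ t) (h1 : t ≤ 1) :
    HasDerivAt (fun t : ℝ => (fs N (a + (t : ℂ) * (b - a)) * conj (b - a)).re)
      ((pp N (tau (a + (t : ℂ) * (b - a)))).re / 2 * Complex.normSq (b - a)) t := by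
  have h2 : HasDerivAt (fun t : ℝ => a + (t : ℂ) * (b - a)) (1 * (b - a)) t :=
    ((hasDerivAt_id t).ofReal_comp.mul_const (b - a)).const_add a
  have h3 := (fs_der N (seg_le ha hb h0 h1)).comp t h2
  have h4 := h3.mul_const (conj (b - a))
  have h5 := (Complex.reCLM.hasFDerivAt (x := fs N (a + (t : ℂ) * (b - a)) * conj (b - a))).comp_hasDerivAt t h4
  have e : Complex.reCLM (pp N (tau (a + (t : ℂ) * (b - a))) / 2 * (1 * (b - a)) * conj (b - a)) =
      (pp N (tau (a + (t : ℂ) * (b - a)))).re / 2 * Complex.normSq (b - a) := by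
    rw [one_mul, mul_assoc, Complex.mul_conj]
    show (pp N (tau (a + (t : ℂ) * (b - a))) / 2 * ((Complex.normSq (b - a) : ℝ) : ℂ)).re = _
    rw [Complex.re_mul_ofReal]
    have : (pp N (tau (a + (t : ℂ) * (b - a))) / 2).re = (pp N (tau (a + (t : ℂ) * (b - a)))).re / 2 := by
      rw [show (2 : ℂ) = ((2 : ℝ) : ℂ) by norm_num, Complex.div_ofReal_re]
    rw [this]
  rw [e] at h5
  exact h5

/-- monotonicity on the closed strip -/
lemma strip_mono (N : ℕ) {a b : ℂ} (ha : |a.im| ≤ Real.pi / 2) (hb : |b.im| ≤ Real.pi / 2) :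
    0 ≤ ((fs N b - fs N a) * conj (b - a)).re := by
  have hm : MonotoneOn (fun t : ℝ => (fs N (a + (t : ℂ) * (b - a)) * conj (b - a)).re) (Icc 0 1) := by
    apply monotoneOn_of_deriv_nonneg (convex_Icc 0 1)
    · intro t ht
      exact (seg_der N ha hb ht.1 ht.2).continuousAt.continuousWithinAt
    · intro t ht
      rw [interior_Icc] at ht
      exact (seg_der N ha hb ht.1.le ht.2.le).differentiableAt.differentiableWithinAt
    · intro t ht
      rw [interior_Icc] at ht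
      rw [(seg_der N ha hb ht.1.le ht.2.le).deriv]
      have := re_pp_nonneg N (tau_le (seg_le ha hb ht.1.le ht.2.le))
      have h2 := Complex.normSq_nonneg (b - a)
      positivity
  have h := hm (left_mem_Icc.2 zero_le_one) (right_mem_Icc.2 zero_le_one) zero_le_one
  simp only [Complex.ofReal_zero, zero_mul, add_zero, Complex.ofReal_one, one_mul] at h
  rw [show a + (b - a) = b by ring] at h
  rw [sub_mul, Complex.sub_re]
  linarith

/-- injectivity on the open strip -/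
lemma strip_inj (N : ℕ) {a b : ℂ} (ha : |a.im| < Real.pi / 2) (hb : |b.im| < Real.pi / 2) (h : fs N a = fs N b) : a = b := by
  by_contra hab
  have hn : 0 < Complex.normSq (b - a) := Complex.normSq_pos.2 (sub_ne_zero.2 (Ne.symm hab))
  have hm : StrictMonoOn (fun t : ℝ => (fs N (a + (t : ℂ) * (b - a)) * conj (b - a)).re) (Icc 0 1) := by
    apply strictMonoOn_of_deriv_pos (convex_Icc 0 1)
    · intro t ht
      exact (seg_der N ha.le hb.le ht.1 ht.2).continuousAt.continuousWithinAt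
    · intro t ht
      rw [interior_Icc] at ht
      rw [(seg_der N ha.le hb.le ht.1.le ht.2.le).deriv]
      have := re_pp_pos N (tau_lt (seg_lt ha hb ht.1.le ht.2.le))
      positivity
  have h2 := hm (left_mem_Icc.2 zero_le_one) (right_mem_Icc.2 zero_le_one) zero_lt_one
  simp only [Complex.ofReal_zero, zero_mul, add_zero, Complex.ofReal_one, one_mul] at h2
  rw [show a + (b - a) = b by ring, h] at h2
  exact lt_irrefl _ h2

lemma re_quot_pos {z : ℂ} (hz : ‖z‖ < 1) : 0 < ((1 + z) / (1 - z)).re := by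
  have hne : 1 - z ≠ 0 := by
    intro h
    have h1 : z = 1 := (sub_eq_zero.1 h).symm
    rw [h1, norm_one] at hz
    exact lt_irrefl _ hz
  have hn : 0 < Complex.normSq (1 - z) := Complex.normSq_pos.2 hne
  rw [Complex.div_re, ← add_div]
  apply div_pos _ hn
  have h1 : z.re * z.re + z.im * z.im < 1 := by
    have h2 : ‖z‖ ^ 2 < 1 := by
      have := norm_nonneg z
      nlinarith
    rw [Complex.sq_norm, Complex.normSq_apply] at h2
    exact h2
  simp
  nlinarith

lemma log_im {z : ℂ} (hz : ‖z‖ < 1) : |(Complex.log ((1 + z) / (1 - z))).im| < Real.pi / 2 := by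
  rw [Complex.log_im]
  exact Complex.abs_arg_lt_pi_div_two_iff.2 (Or.inl (re_quot_pos hz))

lemma tau_log {z : ℂ} (hz : ‖z‖ < 1) : tau (Complex.log ((1 + z) / (1 - z))) = z := by
  have hne : 1 - z ≠ 0 := by
    intro h
    have h1 : z = 1 := (sub_eq_zero.1 h).symm
    rw [h1, norm_one] at hz
    exact lt_irrefl _ hz
  have hp : (1 + z) / (1 - z) ≠ 0 := by
    intro h
    have := re_quot_pos hz
    rw [h] at this
    simp at this
  unfold tau
  rw [Complex.exp_log hp]
  have h2 : (1 + z) / (1 - z) + 1 = 2 / (1 - z) := by field_simp; ring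
  have h3 : (1 + z) / (1 - z) - 1 = 2 * z / (1 - z) := by field_simp; ring
  rw [h2, h3]
  field_simp

lemma FN_odd (N : ℕ) (z : ℂ) : FN N (-z) = -FN N z := by
  unfold FN
  rw [← Finset.sum_neg_distrib]
  refine Finset.sum_congr rfl fun j _ => ?_
  rw [Odd.neg_pow ⟨j, rfl⟩]
  ring

lemma FN_zero (N : ℕ) : FN N 0 = 0 := by
  unfold FN
  refine Finset.sum_eq_zero fun j _ => ?_
  rw [zero_pow (by omega)]
  simp

lemma FN'_zero (N : ℕ) : FN' N 0 = (uu N : ℂ) := by
  unfold FN' uu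
  rw [zero_pow two_ne_zero, ← coeff_zero_eq_aeval_zero']
  rfl

lemma BB_zero (h2 : S_P2) (N : ℕ) : BB N 0 ≠ 0 := by
  rcases N with _ | N
  · simp [BB]
  · simp only [BB, zero_mul, zero_add]
    have := (h2 N).1
    positivity

lemma FN'_ne (h2 : S_P2) (N : ℕ) {z : ℂ} (hz : ‖z‖ ≤ 1) : FN' N z ≠ 0 := by
  intro h0
  rcases hz.lt_or_eq with h | h
  · have h3 := re_pp_pos N h
    unfold pp at h3
    rw [h0, mul_zero] at h3
    simp at h3
  · obtain ⟨θ, -, rfl⟩ := eq_ez h
    have h3 := P1a N θ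
    rw [h0, mul_zero] at h3
    have h4 := congrArg Complex.im h3
    have h5 := congrArg Complex.re h3
    simp only [Complex.zero_im, Complex.add_im, Complex.ofReal_im, Complex.im_ofReal_mul, Complex.I_im, mul_one, zero_add] at h4
    simp only [Complex.zero_re, Complex.add_re, Complex.ofReal_re, Complex.re_ofReal_mul, Complex.I_re, mul_zero, add_zero] at h5
    have h6 : Real.sin θ = 0 := pow_eq_zero_iff (by omega) |>.1 h4.symm
    rw [h6, zero_pow two_ne_zero] at h5
    rcases mul_eq_zero.1 h5.symm with h7 | h7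
    · have := Real.sin_sq_add_cos_sq θ
      rw [h6, h7] at this
      norm_num at this
    · exact BB_zero h2 N h7

theorem P3 (_h1 : S_P1) (h2 : S_P2) : S_P3 := by
  intro N
  refine ⟨FN_der N, (FN'_diff N).continuous, ?_, fun z hz => FN'_ne h2 N hz, FN_zero N, ⟨uu N, (h2 N).1, FN'_zero N⟩, FN_odd N⟩
  intro z hz w hw hzw
  rw [mem_ball_zero_iff] at hz hw
  have h := strip_inj N (log_im hz) (log_im hw) (by
    unfold fs
    rw [tau_log hz, tau_log hw]
    exact hzw)
  have h3 := congrArg tau h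
  rwa [tau_log hz, tau_log hw] at h3

end Run7.h382.FL
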